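import Pool.Agent.Helper48.OR.Top

/-!
The word problem for associative algebras with a single defining relation is undecidable.
-/

set_option autoImplicit false

namespace Pool.Agent.Results.MP_b71150_al.Undecidable

/-- The noncommutative polynomial (an element of the free associative unital algebra
`F⟨x_0, …, x_{n-1}⟩`) given by a finite list of terms `(a, w)`: it is the sum of the terms
`c a • w`, where `c a` is the element of `F` with code `a` and `w` is a word in the generators. -/
def ncPoly (F : Type) [CommRing F] {C : Type} (c : C → F) {n : ℕ} (g : List (C × List (Fin n))) :
    FreeAlgebra F (Fin n) :=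
  (g.map fun t => c t.1 • (t.2.map (FreeAlgebra.ι F)).prod).sum

/-- There are a number `n` and one noncommutative polynomial `f` in `n` variables with integer
coefficients such that for EVERY field `F` the membership problem for the two-sided ideal `(f)` of
the free associative algebra `F⟨x_0, …, x_{n-1}⟩` is undecidable, for every coding `c : C → F` of
the coefficients of the input in which `1` and `-1` have a code (for example `C = F`, `c = id`, or
`C = ℤ`). -/
theorem result : ∃ (n : ℕ) (f : List (ℤ × List (Fin n))),
    ∀ (F : Type) [Field F] (C : Type) [Primcodable C] (c : C → F),
      (∃ a, c a = 1) → (∃ a, c a = -1) →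
      ¬ ComputablePred fun g : List (C × List (Fin n)) =>
        ncPoly F c g ∈ TwoSidedIdeal.span {ncPoly F (fun k : ℤ => (k : F)) f} :=
  Pool.Agent.Helper48.OR.top

end Pool.Agent.Results.MP_b71150_al.Undecidable
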